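import Mathlib
import Pool.Agent.V11199.PL.Transfer

/-!
# MP_5d95cf, Q1: Poisson homeomorphisms map symplectic leaves homeomorphically onto leaves

For every Poisson manifold `M` and every Poisson homeomorphism `φ` of `M` (a homeomorphism that is
a limit, uniformly on compact sets, of Poisson diffeomorphisms), the image of every symplectic leaf
is a symplectic leaf, and `φ` is a homeomorphism for the leaf topologies.

Idea of the proof: the rank is lower semicontinuous and invariant under Poisson diffeomorphisms, so
`φ` preserves it (inverses converge as well).  Around a point of rank `r` there is a flow box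
`(a, z) ↦ Φ^a_1(z)`, where `Φ^a` is the flow of the Hamiltonian `a`, linear in a chart; along a
Hamiltonian path that stays in the box and in the points of rank `r`, the transverse coordinate `z`
is constant.  This passes to the limit of the paths `φ_k ∘ γ`, so `φ ∘ γ` stays in a plaque.
-/

open scoped Manifold ContDiff
open Pool.Agent.V11199.PL.Elem (Fn IsPoissonBracket IsPoissonHomeo leaf leafTopology)

namespace Pool.Agent.Results.MP_5d95cf_gt.LeavesPreserved

/-- Let `M` be a manifold with a Poisson bracket `B` and `φ` a Poisson homeomorphism of `M`. Then
`φ` maps the symplectic leaf through `x` onto the symplectic leaf through `φ x`, for all `x`, and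
`φ` and its inverse are continuous for the leaf topology. -/
theorem result {n : ℕ} {M : Type*} [TopologicalSpace M]
    [ChartedSpace (EuclideanSpace ℝ (Fin n)) M] [IsManifold (𝓡 n) ∞ M] [T2Space M]
    (B : Fn n M → Fn n M → Fn n M) (hB : IsPoissonBracket B)
    (φ : M ≃ₜ M) (hφ : IsPoissonHomeo B φ) :
    (∀ x, φ '' leaf B x = leaf B (φ x)) ∧
      @Continuous M M (leafTopology B) (leafTopology B) φ ∧
      @Continuous M M (leafTopology B) (leafTopology B) φ.symm :=
  Pool.Agent.V11199.PL.Elem.main B hB φ hφ

end Pool.Agent.Results.MP_5d95cf_gt.LeavesPreserved
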